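import Pool.Agent.H705.FP.Stm

/-!
# Large values of the local averages (task LOA of helper705)
-/

set_option autoImplicit false

open MeasureTheory ProbabilityTheory Filter Topology Finset

namespace Pool.Agent.H685.FP.LOA

open Pool.Agent.H705 Pool.Agent.H705.FP

theorem rpow_anti {x y z : ℝ} (hy : 0 < y) (hxy : y ≤ x) (hz : z ≤ 0) : x ^ z ≤ y ^ z := by
  rcases hz.lt_or_eq with h | h
  · exact (Real.rpow_le_rpow_iff_of_neg (hy.trans_le hxy) hy h).2 hxy
  · rw [h, Real.rpow_zero, Real.rpow_zero]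

/-- the amplitudes are bounded -/
theorem amp_bdd {a : ℕ → ℝ} (ha : RO.Amp a) : ∃ B : ℝ, 0 ≤ B ∧ ∀ n, a n ≤ B := by
  obtain ⟨C, hC⟩ := ha.2 1 one_pos
  have h5 := ha.1 0
  have h6 := abs_nonneg C
  refine ⟨a 0 + |C| + 1, by linarith, fun n => ?_⟩
  rcases Nat.eq_zero_or_pos n with rfl | hn
  · linarith
  · have h1 := hC n (n + 1) hn (Nat.le_succ n)
    rw [Finset.sum_Ico_succ_top le_rfl, Finset.Ico_self, Finset.sum_empty, zero_add] at h1
    have h2 : ((n : ℝ)) ^ ((-1 : ℝ) + 1) = 1 := by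
      rw [neg_add_cancel, Real.rpow_zero]
    rw [h2, mul_one] at h1
    have h3 : a n ≤ a n ^ 2 + 1 := by nlinarith [sq_nonneg (a n - 1 / 2)]
    have h4 := le_abs_self C
    linarith

theorem part_diff {W : ℕ → ℝ → ℝ} {a : ℕ → ℝ} {A : ℕ} {B : ℝ} (hB0 : 0 ≤ B)
    (hB : ∀ n, a n ≤ B)
    (hL : ∀ (n : ℕ) (t t' : ℝ), |W n t - W n t'| ≤ a n * (2 * ((n : ℝ) + 2) ^ A) * |t - t'|)
    (M : ℕ) (y t : ℝ) :
    |RO.part W M y - RO.part W M t| ≤ M * (B * (2 * ((M : ℝ) + 2) ^ A)) * |y - t| := by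
  unfold RO.part
  rw [← sum_sub_distrib]
  refine (abs_sum_le_sum_abs _ _).trans ?_
  have h : ∀ n ∈ range M, |W n y - W n t| ≤ B * (2 * ((M : ℝ) + 2) ^ A) * |y - t| := by
    intro n hn
    refine (hL n y t).trans ?_
    refine mul_le_mul_of_nonneg_right ?_ (abs_nonneg _)
    refine mul_le_mul (hB n) ?_ (by positivity) hB0
    have h1 : (n : ℝ) ≤ M := by exact_mod_cast (mem_range.1 hn).le
    refine mul_le_mul_of_nonneg_left ?_ (by norm_num)
    exact pow_le_pow_left₀ (by positivity) (by linarith) A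
  refine (sum_le_sum h).trans ?_
  rw [sum_const, card_range, nsmul_eq_mul]
  exact le_of_eq (by ring)

theorem T_LOA : P_LOA := by
  intro W F a A σ c hσ hWc ha hL hUT hP hBig hc hcA c' hc' hc'1
  obtain ⟨D, hD1, hBq⟩ := hBig c' hc' hc'1
  refine ⟨D, hD1, ?_⟩
  obtain ⟨B, hB0, hB⟩ := amp_bdd ha
  obtain ⟨K, hK0, hK⟩ := hUT 0
  have hσ1 : |σ| = 1 := by
    rcases hσ with rfl | rfl
    · exact abs_one
    · rw [abs_neg, abs_one]
  obtain ⟨m₁, hm₁⟩ : ∃ m : ℕ, c * (2 * A + 4) < RO.pe m := by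
    obtain ⟨m, hm⟩ := exists_nat_one_div_lt (show 0 < 1 - c * (2 * (A : ℝ) + 4) by linarith)
    refine ⟨m, ?_⟩
    unfold RO.pe
    have h1 : 1 / ((m : ℝ) + 2) ≤ 1 / ((m : ℝ) + 1) :=
      one_div_le_one_div_of_le (by positivity) (by linarith)
    linarith
  have hp1 : RO.pe m₁ ≤ 1 := by
    unfold RO.pe
    have h1 : 0 ≤ 1 / ((m₁ : ℝ) + 2) := by positivity
    linarith
  obtain ⟨C₁, hC₁0, hC₁⟩ := hP.2 m₁
  set p : ℝ := RO.pe m₁ with hp
  have hA0 : (0 : ℝ) ≤ A := Nat.cast_nonneg A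
  have hp0 : 0 < p := lt_of_le_of_lt (by positivity) hm₁
  set s : ℝ := 1 / ((A : ℝ) + 2) with hs
  have hs0 : 0 < s := by positivity
  have hsA : s * ((A : ℝ) + 2) = 1 := by
    rw [hs, one_div, inv_mul_cancel₀ (by positivity)]
  obtain ⟨δ, hδ⟩ : ∃ δ : ℝ, δ = p * s / 2 - c := ⟨_, rfl⟩
  have hδ0 : 0 < δ := by
    have h1 : c * (2 * A + 4) * s < p * s := mul_lt_mul_of_pos_right hm₁ hs0
    have h2 : c * (2 * A + 4) * s = 2 * c * (s * ((A : ℝ) + 2)) := by ring
    rw [h2, hsA] at h1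
    linarith
  obtain ⟨q, hq⟩ := exists_nat_ge (max (4 * ((A : ℝ) + 2)) ((4 * A + 9) / c))
  have hq1 : 4 * (A + 2) ≤ q := by
    have h1 : 4 * ((A : ℝ) + 2) ≤ q := (le_max_left _ _).trans hq
    exact_mod_cast h1
  have hq2 : 4 * (A : ℝ) + 9 ≤ c * q := by
    have h1 : (4 * (A : ℝ) + 9) / c ≤ q := (le_max_right _ _).trans hq
    rw [div_le_iff₀ hc] at h1
    linarith
  obtain ⟨N₁, hN₁⟩ := hBq q
  have e1 : ∀ᶠ N : ℕ in atTop, N₁ ≤ N := eventually_ge_atTop N₁
  have e2 : ∀ᶠ N : ℕ in atTop, 1 ≤ N := eventually_ge_atTop 1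
  have e3 : ∀ᶠ N : ℕ in atTop, 2 * B * 3 ^ A ≤ (N : ℝ) :=
    tendsto_natCast_atTop_atTop.eventually_ge_atTop _
  have e4 : ∀ᶠ N : ℕ in atTop, 4 * K ^ 2 * (8 + 2 * D) ≤ (N : ℝ) :=
    tendsto_natCast_atTop_atTop.eventually_ge_atTop _
  have e5 : ∀ᶠ N : ℕ in atTop, 2 * C₁ * (N : ℝ) ^ (-δ) ≤ 1 := by
    have h1 : Tendsto (fun N : ℕ => 2 * C₁ * (N : ℝ) ^ (-δ)) atTop (𝓝 (2 * C₁ * 0)) :=
      ((tendsto_rpow_neg_atTop hδ0).comp tendsto_natCast_atTop_atTop).const_mul _
    rw [mul_zero] at h1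
    exact (h1.eventually (gt_mem_nhds one_pos)).mono fun _ h => le_of_lt h
  have e : ∀ᶠ N : ℕ in atTop, ∃ t : ℝ, (N : ℝ) ≤ t ∧ t ≤ Real.exp (D * N) ∧
      c' * RO.R a N - 4 ≤ σ * avg F c t := by
    filter_upwards [e1, e2, e3, e4, e5] with N h1 h2 h3 h4 h5
    obtain ⟨t, ht1, ht2, ht3⟩ := hN₁ N h1
    have hNR : (1 : ℝ) ≤ N := by exact_mod_cast h2
    have hN0 : (0 : ℝ) < N := by linarith
    have hq0 : q ≠ 0 := by omega
    have htN : (N : ℝ) ≤ t := (le_self_pow₀ hNR hq0).trans ht1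
    have ht1' : (1 : ℝ) ≤ t := hNR.trans htN
    have ht0 : (0 : ℝ) < t := by linarith
    refine ⟨t, htN, ht2, ?_⟩
    obtain ⟨T, hT⟩ : ∃ T : ℝ, T = t ^ s := ⟨_, rfl⟩
    have hTA : T ^ (A + 2) = t := by
      rw [hT, ← Real.rpow_natCast, ← Real.rpow_mul ht0.le]
      push_cast
      rw [hsA, Real.rpow_one]
    have hT0 : 0 < T := by
      rw [hT]
      exact Real.rpow_pos_of_pos ht0 _
    have hNT : ((N : ℝ) ^ 4) ≤ T := by
      have h6 : ((N : ℝ) ^ 4) ^ (A + 2) ≤ T ^ (A + 2) := by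
        rw [hTA, ← pow_mul]
        exact (pow_le_pow_right₀ hNR hq1).trans ht1
      exact le_of_pow_le_pow_left₀ (by omega) hT0.le h6
    obtain ⟨L, hLdef⟩ : ∃ L : ℕ, L = ⌊T⌋₊ := ⟨_, rfl⟩
    have hLN : N ^ 4 ≤ L := by
      rw [hLdef]
      exact Nat.le_floor (by push_cast; exact hNT)
    have hLT : (L : ℝ) ≤ T := by
      rw [hLdef]
      exact Nat.floor_le hT0.le
    have hLt : (L : ℝ) ^ (A + 2) ≤ t := by
      rw [← hTA]
      exact pow_le_pow_left₀ (by positivity) hLT _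
    have hL1 : 1 ≤ L := le_trans (Nat.one_le_pow _ _ h2) hLN
    have hL1' : (1 : ℝ) ≤ L := by exact_mod_cast hL1
    have hTL : T ≤ 2 * L := by
      have h6 := Nat.lt_floor_add_one T
      rw [← hLdef] at h6
      linarith
    obtain ⟨η, hη⟩ : ∃ η : ℝ, η = t ^ (-c) := ⟨_, rfl⟩
    have hη0 : 0 < η := by
      rw [hη]
      exact Real.rpow_pos_of_pos ht0 _
    have hη1 : η ≤ 1 := by
      rw [hη]
      exact Real.rpow_le_one_of_one_le_of_nonpos ht1' (by linarith)
    have hηN : η ≤ 1 / (N : ℝ) ^ (4 * A + 9) := by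
      have h6 : t ^ (-c) ≤ ((N : ℝ) ^ q) ^ (-c) :=
        rpow_anti (by positivity) ht1 (by linarith)
      have h7 : ((N : ℝ) ^ q) ^ (-c) = (N : ℝ) ^ (-(c * q)) := by
        rw [← Real.rpow_natCast (N : ℝ) q, ← Real.rpow_mul hN0.le]
        congr 1
        ring
      have h8 : (N : ℝ) ^ (-(c * q)) ≤ (N : ℝ) ^ (-((4 * A + 9 : ℕ) : ℝ)) :=
        Real.rpow_le_rpow_of_exponent_le hNR (by push_cast; linarith)
      have h9 : (N : ℝ) ^ (-((4 * A + 9 : ℕ) : ℝ)) = 1 / (N : ℝ) ^ (4 * A + 9) := by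
        rw [Real.rpow_neg hN0.le, Real.rpow_natCast, one_div]
      rw [hη]
      rw [h7] at h6
      rw [h9] at h8
      exact h6.trans h8
    -- the second term
    have hsec : ∀ y, t ≤ y → y ≤ t + η →
        |RO.part W (N ^ 4) y - RO.part W (N ^ 4) t| ≤ 1 := by
      intro y hy1 hy2
      refine (part_diff hB0 hB hL (N ^ 4) y t).trans ?_
      have h6 : |y - t| ≤ 1 / (N : ℝ) ^ (4 * A + 9) := by
        rw [abs_of_nonneg (by linarith)]
        linarith
      push_cast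
      have h7 : ((N : ℝ) ^ 4 + 2) ^ A ≤ (3 * (N : ℝ) ^ 4) ^ A := by
        refine pow_le_pow_left₀ (by positivity) ?_ A
        have h8 : (1 : ℝ) ≤ (N : ℝ) ^ 4 := one_le_pow₀ hNR
        linarith
      calc (N : ℝ) ^ 4 * (B * (2 * ((N : ℝ) ^ 4 + 2) ^ A)) * |y - t| ≤
            (N : ℝ) ^ 4 * (B * (2 * (3 * (N : ℝ) ^ 4) ^ A)) * (1 / (N : ℝ) ^ (4 * A + 9)) := by
            gcongr
        _ = (2 * B * 3 ^ A) * (1 / (N : ℝ) ^ 5) := by
            rw [mul_pow, ← pow_mul, show 4 * A + 9 = 4 * A + 4 + 5 by ring, pow_add, pow_add]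
            field_simp
        _ ≤ N * (1 / (N : ℝ) ^ 5) := by gcongr
        _ ≤ 1 := by
            rw [mul_one_div, div_le_one (by positivity)]
            exact le_self_pow₀ hNR (by norm_num)
    -- the third term
    have hthird : ∀ y, t ≤ y → y ≤ t + η → |∑ n ∈ Ico (N ^ 4) L, W n y| ≤ 1 := by
      intro y hy1 hy2
      obtain ⟨J, hJ⟩ : ∃ J : ℕ, J = Nat.log 2 (N ^ 4) := ⟨_, rfl⟩
      obtain ⟨k, hk⟩ : ∃ k : ℕ, k = ⌈(D * N + 1) / Real.log 2⌉₊ := ⟨_, rfl⟩
      have hlog2 : 1 / 2 < Real.log 2 := by linarith [Real.log_two_gt_d9]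
      have hlog0 : 0 < Real.log 2 := by linarith
      have hDN : 0 ≤ D * N := by positivity
      have hN4 : N ^ 4 ≠ 0 := pow_ne_zero _ (by omega)
      have hJ1 : 2 ^ J ≤ N ^ 4 := by
        rw [hJ]
        exact Nat.pow_log_le_self 2 hN4
      have hJ2 : N ^ 4 < 2 ^ (J + 1) := by
        rw [hJ]
        exact Nat.lt_pow_succ_log_self (by norm_num) _
      have hJ3 : J < 4 * N := by
        have h6 : N ^ 4 < 2 ^ (4 * N) := by
          calc N ^ 4 < (2 ^ N) ^ 4 := Nat.pow_lt_pow_left Nat.lt_two_pow_self (by norm_num)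
            _ = 2 ^ (4 * N) := by rw [← pow_mul, mul_comm]
        exact (Nat.pow_lt_pow_iff_right (by norm_num)).1 (lt_of_le_of_lt hJ1 h6)
      have hk1 : (D * N + 1) / Real.log 2 ≤ k := by
        rw [hk]
        exact Nat.le_ceil _
      have hk2 : (k : ℝ) ≤ 2 * (D * N + 1) + 1 := by
        have h6 : (k : ℝ) < (D * N + 1) / Real.log 2 + 1 := by
          rw [hk]
          exact Nat.ceil_lt_add_one (by positivity)
        have h7 : (D * N + 1) / Real.log 2 ≤ 2 * (D * N + 1) := by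
          rw [div_le_iff₀ hlog0]
          nlinarith
        linarith
      have hyk : y ≤ 2 ^ k := by
        have h6 : (2 : ℝ) ^ k = Real.exp (k * Real.log 2) := by
          rw [Real.exp_nat_mul, Real.exp_log (by norm_num)]
        have h7 : D * N + 1 ≤ k * Real.log 2 := by
          rwa [div_le_iff₀ hlog0] at hk1
        have h8 : Real.exp (D * N + 1) ≤ Real.exp (k * Real.log 2) := Real.exp_le_exp.2 h7
        have h9 : Real.exp (D * N + 1) = Real.exp (D * N) * Real.exp 1 := Real.exp_add _ _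
        have h10 : (1 : ℝ) + 1 ≤ Real.exp 1 := Real.add_one_le_exp 1
        have h11 : 1 ≤ Real.exp (D * N) := Real.one_le_exp hDN
        rw [h6]
        nlinarith
      have h6 := hK J k y (by linarith) hyk (N ^ 4) L hJ1 hLN (hLt.trans hy1)
      refine h6.trans ?_
      obtain ⟨x, hx⟩ : ∃ x : ℝ, x = (2 : ℝ) ^ ((J : ℝ) / 4) := ⟨_, rfl⟩
      have hx0 : 0 < x := by
        rw [hx]
        positivity
      have hx4 : x ^ 4 = 2 ^ J := by
        rw [hx, ← Real.rpow_natCast, ← Real.rpow_mul (by norm_num), ← Real.rpow_natCast]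
        congr 1
        push_cast
        ring
      have hNx : (N : ℝ) ≤ 2 * x := by
        have h7 : (N : ℝ) ^ 4 ≤ (2 * x) ^ 4 := by
          have h8 : ((N ^ 4 : ℕ) : ℝ) ≤ ((2 ^ (J + 1) : ℕ) : ℝ) := by exact_mod_cast hJ2.le
          push_cast at h8
          rw [pow_succ (2 : ℝ) J, ← hx4] at h8
          have h9 : 0 < x ^ 4 := by positivity
          nlinarith
        exact le_of_pow_le_pow_left₀ (by norm_num) (by positivity) h7
      have h7 : (2 : ℝ) ^ (-(RO.pe 0 * J / 2)) = x⁻¹ := by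
        have h8 : RO.pe 0 * J / 2 = (J : ℝ) / 4 := by
          unfold RO.pe
          push_cast
          ring
        rw [h8, Real.rpow_neg (by norm_num), hx]
      rw [h7]
      have h8 : x⁻¹ ≤ 2 / N := by
        rw [inv_le_comm₀ hx0 (by positivity), inv_div]
        linarith
      have h9 : (J : ℝ) + k + 1 ≤ (8 + 2 * D) * N := by
        have h10 : (J : ℝ) ≤ 4 * N := by exact_mod_cast hJ3.le
        nlinarith
      have h10 : 2 * K * Real.sqrt ((8 + 2 * D) * N) ≤ N := by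
        have h11 : (2 * K * Real.sqrt ((8 + 2 * D) * N)) ^ 2 ≤ (N : ℝ) ^ 2 := by
          rw [mul_pow, Real.sq_sqrt (by positivity)]
          nlinarith
        exact le_of_pow_le_pow_left₀ (by norm_num) hN0.le h11
      calc K * x⁻¹ * Real.sqrt ((J : ℝ) + k + 1) ≤
            K * (2 / N) * Real.sqrt ((8 + 2 * D) * N) := by
            gcongr
        _ = (2 * K * Real.sqrt ((8 + 2 * D) * N)) / N := by ring
        _ ≤ 1 := by
            rw [div_le_one hN0]
            exact h10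
    -- the lower bound on the window
    have hlow : ∀ y ∈ Set.Icc t (t + η), c' * RO.R a N - 3 ≤ σ * RO.part W L y := by
      intro y hy
      have h6 := hsec y hy.1 hy.2
      have h7 := hthird y hy.1 hy.2
      have h8 : RO.part W L y = RO.part W (N ^ 4) y + ∑ n ∈ Ico (N ^ 4) L, W n y := by
        unfold RO.part
        rw [Finset.sum_range_add_sum_Ico _ hLN]
      have h9 : |σ * (RO.part W L y - RO.part W (N ^ 4) t)| ≤ 2 := by
        rw [abs_mul, hσ1, one_mul, h8]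
        have h10 : RO.part W (N ^ 4) y + ∑ n ∈ Ico (N ^ 4) L, W n y - RO.part W (N ^ 4) t =
            (RO.part W (N ^ 4) y - RO.part W (N ^ 4) t) + ∑ n ∈ Ico (N ^ 4) L, W n y := by ring
        rw [h10]
        refine (abs_add_le _ _).trans ?_
        linarith
      have h10 := (abs_le.1 h9).1
      rw [mul_sub] at h10
      linarith
    -- the integral
    have hcont : Continuous fun y => RO.part W L y := by
      unfold RO.part
      exact continuous_finsetSum _ fun n _ => hWc n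
    have hint : η * (c' * RO.R a N - 3) ≤ σ * ∫ y in t..(t + η), RO.part W L y := by
      have h6 : ∫ _ in t..(t + η), (c' * RO.R a N - 3) ≤
          ∫ y in t..(t + η), σ * RO.part W L y :=
        intervalIntegral.integral_mono_on (by linarith)
          intervalIntegrable_const
          ((continuous_const.mul hcont).intervalIntegrable _ _) hlow
      rw [intervalIntegral.integral_const, intervalIntegral.integral_const_mul, smul_eq_mul,
        add_sub_cancel_left] at h6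
      exact h6
    have hE := hC₁ L hL1 t (t + η) ht0.le (by linarith)
    have htc0 : 0 < t ^ c := Real.rpow_pos_of_pos ht0 _
    have htη : t ^ c * η = 1 := by
      rw [hη, ← Real.rpow_add ht0, add_neg_cancel, Real.rpow_zero]
    have hE1 : t ^ c * (C₁ * (L : ℝ) ^ (-(p / 2))) ≤ 1 := by
      have h6 : (L : ℝ) ^ (-(p / 2)) ≤ (T / 2) ^ (-(p / 2)) :=
        rpow_anti (by positivity) (by linarith) (by linarith)
      have h7 : (T / 2) ^ (-(p / 2)) ≤ 2 * T ^ (-(p / 2)) := by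
        rw [Real.div_rpow hT0.le (by norm_num), Real.rpow_neg (by norm_num : (0 : ℝ) ≤ 2),
          div_inv_eq_mul, mul_comm]
        refine mul_le_mul_of_nonneg_right ?_ (Real.rpow_nonneg hT0.le _)
        calc (2 : ℝ) ^ (p / 2) ≤ 2 ^ (1 : ℝ) :=
              Real.rpow_le_rpow_of_exponent_le (by norm_num) (by linarith)
          _ = 2 := Real.rpow_one 2
      have h8 : T ^ (-(p / 2)) = t ^ (-(p * s / 2)) := by
        rw [hT, ← Real.rpow_mul ht0.le]
        congr 1
        ring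
      have h9 : t ^ c * t ^ (-(p * s / 2)) = t ^ (-δ) := by
        rw [← Real.rpow_add ht0]
        congr 1
        rw [hδ]
        ring
      have h10 : t ^ (-δ) ≤ (N : ℝ) ^ (-δ) :=
        rpow_anti hN0 htN (by linarith)
      calc t ^ c * (C₁ * (L : ℝ) ^ (-(p / 2))) ≤ t ^ c * (C₁ * (2 * T ^ (-(p / 2)))) := by
            refine mul_le_mul_of_nonneg_left ?_ htc0.le
            exact mul_le_mul_of_nonneg_left (h6.trans h7) hC₁0
        _ = 2 * C₁ * (t ^ c * t ^ (-(p * s / 2))) := by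
            rw [h8]
            ring
        _ ≤ 2 * C₁ * (N : ℝ) ^ (-δ) := by
            rw [h9]
            exact mul_le_mul_of_nonneg_left h10 (by positivity)
        _ ≤ 1 := h5
    have havg : avg F c t = t ^ c * (F (t + η) - F t) := by
      rw [hη]
      rfl
    have hfin : σ * (∫ y in t..(t + η), RO.part W L y) - C₁ * (L : ℝ) ^ (-(p / 2)) ≤
        σ * (F (t + η) - F t) := by
      have h6 : |σ * (F (t + η) - F t - ∫ y in t..(t + η), RO.part W L y)| ≤
          C₁ * (L : ℝ) ^ (-(p / 2)) := by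
        rw [abs_mul, hσ1, one_mul]
        exact hE
      have h7 := (abs_le.1 h6).1
      rw [mul_sub] at h7
      linarith
    have h6 : t ^ c * (η * (c' * RO.R a N - 3) - C₁ * (L : ℝ) ^ (-(p / 2))) ≤
        t ^ c * (σ * (F (t + η) - F t)) :=
      mul_le_mul_of_nonneg_left (by linarith) htc0.le
    have h7 : t ^ c * (η * (c' * RO.R a N - 3) - C₁ * (L : ℝ) ^ (-(p / 2))) =
        (t ^ c * η) * (c' * RO.R a N - 3) - t ^ c * (C₁ * (L : ℝ) ^ (-(p / 2))) := by ring
    rw [h7, htη, one_mul] at h6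
    rw [havg]
    have h8 : σ * (t ^ c * (F (t + η) - F t)) = t ^ c * (σ * (F (t + η) - F t)) := by ring
    rw [h8]
    linarith
  exact eventually_atTop.1 e

end Pool.Agent.H685.FP.LOA

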